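import Pool.Agent.Helper83.EP.Defs

/-!
# Exponential polynomials: the number of maps with given truncated fibre sizes
-/

set_option autoImplicit false

namespace Pool.Agent.Helper53.EP

open Pool.Agent.Helper83.EP

theorem gen_mem (s j : ℕ) : eb s j ∈ EP := Submodule.subset_span ⟨(s, j), rfl⟩

theorem choose_eq (n s : ℕ) : (n.choose s : ℚ) = (s.factorial : ℚ)⁻¹ * (n.descFactorial s : ℚ) := by
  rw [Nat.descFactorial_eq_factorial_mul_choose]
  push_cast
  have : (s.factorial : ℚ) ≠ 0 := by exact_mod_cast s.factorial_ne_zero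
  field_simp

theorem desc_add (n s t : ℕ) : n.descFactorial (s + t) = n.descFactorial s * (n - s).descFactorial t := by
  have h := Nat.descFactorial_mul_descFactorial (n := n) (k := s) (m := s + t) (Nat.le_add_right _ _)
  rw [Nat.add_sub_cancel_left] at h
  rw [← h, mul_comm]

/-- one class of a given size is peeled -/
theorem peel1 {F : ℕ → ℚ} (hF : F ∈ EP) (s : ℕ) : (fun n => (n.choose s : ℚ) * F (n - s)) ∈ EP := by
  unfold EP at hF
  induction hF using Submodule.span_induction with
  | mem F h =>
    obtain ⟨⟨t, j⟩, rfl⟩ := h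
    have h1 : (fun n => (n.choose s : ℚ) * eb t j (n - s)) = (s.factorial : ℚ)⁻¹ • eb (s + t) j := by
      funext n
      show (n.choose s : ℚ) * (((n - s).descFactorial t : ℚ) * (j : ℚ) ^ (n - s - t)) =
        (s.factorial : ℚ)⁻¹ * ((n.descFactorial (s + t) : ℚ) * (j : ℚ) ^ (n - (s + t)))
      rw [choose_eq, desc_add, Nat.sub_sub]
      push_cast
      ring
    rw [h1]
    exact EP.smul_mem _ (gen_mem _ _)
  | zero =>
    have : (fun n : ℕ => (n.choose s : ℚ) * (0 : ℕ → ℚ) (n - s)) = 0 := by
      funext n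
      simp
    rw [this]
    exact EP.zero_mem
  | add F G _ _ h1 h2 =>
    have : (fun n : ℕ => (n.choose s : ℚ) * (F + G) (n - s)) =
        (fun n => (n.choose s : ℚ) * F (n - s)) + fun n => (n.choose s : ℚ) * G (n - s) := by
      funext n
      simp [mul_add]
    rw [this]
    exact EP.add_mem h1 h2
  | smul c F _ h1 =>
    have : (fun n : ℕ => (n.choose s : ℚ) * (c • F) (n - s)) = c • fun n => (n.choose s : ℚ) * F (n - s) := by
      funext n
      simp only [Pi.smul_apply, smul_eq_mul]
      ring
    rw [this]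
    exact EP.smul_mem _ h1

/-- the sum over the sizes of one class, for one generator -/
theorem sum_eb (t j n : ℕ) : ∑ a ∈ Finset.range (n + 1), (n.choose a : ℚ) * eb t j (n - a) = eb t (j + 1) n := by
  have h1 : ∑ a ∈ Finset.range (n + 1), (n.choose a : ℚ) * eb t j (n - a) =
      ∑ b ∈ Finset.range (n + 1), (n.choose b : ℚ) * eb t j b := by
    rw [← Finset.sum_range_reflect]
    refine Finset.sum_congr rfl fun b hb => ?_
    have hb' : b ≤ n := Nat.lt_succ_iff.1 (Finset.mem_range.1 hb)
    have e1 : n + 1 - 1 - b = n - b := by omega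
    rw [e1, Nat.sub_sub_self hb', Nat.choose_symm hb']
  rw [h1]
  unfold eb
  rcases Nat.lt_or_ge n t with hnt | hnt
  · rw [Nat.descFactorial_eq_zero_iff_lt.2 hnt]
    rw [Nat.cast_zero, zero_mul]
    refine Finset.sum_eq_zero fun b hb => ?_
    have hb' : b < t := by
      have := Finset.mem_range.1 hb
      omega
    rw [Nat.descFactorial_eq_zero_iff_lt.2 hb']
    simp
  · obtain ⟨d, rfl⟩ := Nat.exists_eq_add_of_le hnt
    have h2 : ∀ b ∈ Finset.range t, (((t + d).choose b : ℕ) : ℚ) * (((b.descFactorial t : ℕ) : ℚ) * (j : ℚ) ^ (b - t)) = 0 := by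
      intro b hb
      rw [Nat.descFactorial_eq_zero_iff_lt.2 (Finset.mem_range.1 hb)]
      simp
    have h3 : t + d + 1 = t + (d + 1) := by ring
    rw [h3, Finset.sum_range_add, Finset.sum_eq_zero h2, zero_add]
    have h4 : ∀ c ∈ Finset.range (d + 1), (((t + d).choose (t + c) : ℕ) : ℚ) *
        ((((t + c).descFactorial t : ℕ) : ℚ) * (j : ℚ) ^ (t + c - t)) =
        (((t + d).descFactorial t : ℕ) : ℚ) * ((j : ℚ) ^ c * 1 ^ (d - c) * (d.choose c : ℚ)) := by
      intro c hc
      have hc' : c ≤ d := Nat.lt_succ_iff.1 (Finset.mem_range.1 hc)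
      have e1 : (t + d).choose (t + c) * (t + c).descFactorial t = (t + d).descFactorial t * d.choose c := by
        rw [Nat.descFactorial_eq_factorial_mul_choose, Nat.descFactorial_eq_factorial_mul_choose]
        have e2 := Nat.choose_mul (n := t + d) (k := t + c) (s := t) (by omega)
        rw [Nat.add_sub_cancel_left, Nat.add_sub_cancel_left] at e2
        calc (t + d).choose (t + c) * (t.factorial * (t + c).choose t)
            = t.factorial * ((t + d).choose (t + c) * (t + c).choose t) := by ring
          _ = t.factorial * ((t + d).choose t * d.choose c) := by rw [e2]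
          _ = _ := by ring
      have e3 : (((t + d).choose (t + c) : ℕ) : ℚ) * (((t + c).descFactorial t : ℕ) : ℚ) =
          (((t + d).descFactorial t : ℕ) : ℚ) * (d.choose c : ℚ) := by exact_mod_cast e1
      rw [Nat.add_sub_cancel_left, one_pow, mul_one, ← mul_assoc, e3]
      ring
    rw [Finset.sum_congr rfl h4, ← Finset.mul_sum, ← add_pow, Nat.add_sub_cancel_left]
    push_cast
    rfl

/-- one class of an arbitrary size is peeled -/
theorem peel2 {F : ℕ → ℚ} (hF : F ∈ EP) :
    (fun n => ∑ a ∈ Finset.range (n + 1), (n.choose a : ℚ) * F (n - a)) ∈ EP := by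
  unfold EP at hF
  induction hF using Submodule.span_induction with
  | mem F h =>
    obtain ⟨⟨t, j⟩, rfl⟩ := h
    have : (fun n => ∑ a ∈ Finset.range (n + 1), (n.choose a : ℚ) * eb t j (n - a)) = eb t (j + 1) :=
      funext fun n => sum_eb t j n
    rw [this]
    exact gen_mem _ _
  | zero =>
    have : (fun n : ℕ => ∑ a ∈ Finset.range (n + 1), (n.choose a : ℚ) * (0 : ℕ → ℚ) (n - a)) = 0 := by
      funext n
      simp
    rw [this]
    exact EP.zero_mem
  | add F G _ _ h1 h2 =>
    have : (fun n : ℕ => ∑ a ∈ Finset.range (n + 1), (n.choose a : ℚ) * (F + G) (n - a)) =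
        (fun n => ∑ a ∈ Finset.range (n + 1), (n.choose a : ℚ) * F (n - a)) +
          fun n => ∑ a ∈ Finset.range (n + 1), (n.choose a : ℚ) * G (n - a) := by
      funext n
      simp [mul_add, Finset.sum_add_distrib]
    rw [this]
    exact EP.add_mem h1 h2
  | smul c F _ h1 =>
    have : (fun n : ℕ => ∑ a ∈ Finset.range (n + 1), (n.choose a : ℚ) * (c • F) (n - a)) =
        c • fun n => ∑ a ∈ Finset.range (n + 1), (n.choose a : ℚ) * F (n - a) := by
      funext n
      simp only [Pi.smul_apply, smul_eq_mul, Finset.mul_sum]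
      refine Finset.sum_congr rfl fun a _ => ?_
      ring
    rw [this]
    exact EP.smul_mem _ h1

/-- one class of a given truncated size is peeled -/
theorem peel (Q t : ℕ) {F : ℕ → ℚ} (hF : F ∈ EP) :
    (fun n => ∑ a ∈ Finset.range (n + 1), (n.choose a : ℚ) * (if min Q a = t then F (n - a) else 0)) ∈ EP := by
  have hone : ∀ s : ℕ, (fun n => ∑ a ∈ Finset.range (n + 1), (n.choose a : ℚ) * (if a = s then F (n - a) else 0)) ∈ EP := by
    intro s
    have : (fun n => ∑ a ∈ Finset.range (n + 1), (n.choose a : ℚ) * (if a = s then F (n - a) else 0)) =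
        fun n => (n.choose s : ℚ) * F (n - s) := by
      funext n
      rcases Nat.lt_or_ge n s with h | h
      · rw [Nat.choose_eq_zero_of_lt h, Nat.cast_zero, zero_mul]
        refine Finset.sum_eq_zero fun a ha => ?_
        rw [if_neg (by have := Finset.mem_range.1 ha; omega), mul_zero]
      · rw [Finset.sum_eq_single s]
        · rw [if_pos rfl]
        · intro b _ hb
          rw [if_neg hb, mul_zero]
        · intro hs
          exact absurd (Finset.mem_range.2 (by omega)) hs
    rw [this]
    exact peel1 hF s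
  rcases lt_trichotomy t Q with h | h | h
  · have : (fun n => ∑ a ∈ Finset.range (n + 1), (n.choose a : ℚ) * (if min Q a = t then F (n - a) else 0)) =
        fun n => ∑ a ∈ Finset.range (n + 1), (n.choose a : ℚ) * (if a = t then F (n - a) else 0) := by
      funext n
      refine Finset.sum_congr rfl fun a _ => ?_
      congr 1
      have : min Q a = t ↔ a = t := by omega
      simp only [this]
    rw [this]
    exact hone t
  · subst h
    have : (fun n => ∑ a ∈ Finset.range (n + 1), (n.choose a : ℚ) * (if min t a = t then F (n - a) else 0)) =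
        (fun n => ∑ a ∈ Finset.range (n + 1), (n.choose a : ℚ) * F (n - a)) -
          ∑ s ∈ Finset.range t, fun n => ∑ a ∈ Finset.range (n + 1), (n.choose a : ℚ) * (if a = s then F (n - a) else 0) := by
      funext n
      rw [Pi.sub_apply, Finset.sum_apply, Finset.sum_comm, ← Finset.sum_sub_distrib]
      refine Finset.sum_congr rfl fun a _ => ?_
      rw [← Finset.mul_sum, ← mul_sub]
      congr 1
      rw [Finset.sum_ite_eq]
      by_cases ha : a < t
      · rw [if_neg (by omega), if_pos (Finset.mem_range.2 ha), sub_self]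
      · rw [if_pos (by omega), if_neg (fun h => ha (Finset.mem_range.1 h)), sub_zero]
    rw [this]
    exact EP.sub_mem (peel2 hF) (EP.sum_mem fun s _ => hone s)
  · have : (fun n => ∑ a ∈ Finset.range (n + 1), (n.choose a : ℚ) * (if min Q a = t then F (n - a) else 0)) = 0 := by
      funext n
      refine Finset.sum_eq_zero fun a _ => ?_
      rw [if_neg (by omega), mul_zero]
    rw [this]
    exact EP.zero_mem

/-- the number of maps into `Fin m` with given truncated fibre sizes -/
noncomputable def cf (m Q : ℕ) (τ : Fin m → ℕ) (V : Type) : ℕ :=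
  Nat.card {f : V → Fin m // ∀ i, min Q (Nat.card {x // f x = i}) = τ i}

theorem cf_congr (m Q : ℕ) (τ : Fin m → ℕ) {V V' : Type} (e : V ≃ V') : cf m Q τ V = cf m Q τ V' := by
  refine Nat.card_congr ?_
  refine Equiv.subtypeEquiv (e.arrowCongr (Equiv.refl _)) fun f => ?_
  refine forall_congr' fun i => ?_
  have : Nat.card {x // f x = i} = Nat.card {x // (e.arrowCongr (Equiv.refl (Fin m))) f x = i} :=
    Nat.card_congr (Equiv.subtypeEquiv e fun x => by simp [Equiv.arrowCongr])
  rw [this]

/-- the maps with a given last class -/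
def lastE (m : ℕ) {V : Type} [DecidableEq V] (A : Finset V) :
    {f : V → Fin (m + 1) // ∀ x, f x = Fin.last m ↔ x ∈ A} ≃ ({x // x ∉ A} → Fin m) where
  toFun f := fun x => (f.1 x.1).castPred (fun h => x.2 ((f.2 x.1).1 h))
  invFun g := ⟨fun x => if h : x ∈ A then Fin.last m else (g ⟨x, h⟩).castSucc, fun x => by
    by_cases h : x ∈ A
    · simp [h]
    · simp only [h, dif_neg, not_false_eq_true, iff_false]
      exact (Fin.castSucc_lt_last _).ne⟩
  left_inv f := by
    apply Subtype.ext
    funext x
    by_cases h : x ∈ A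
    · simp only [h, dif_pos]
      exact ((f.2 x).2 h).symm
    · simp only [h, dif_neg, not_false_eq_true]
      exact Fin.castSucc_castPred _ _
  right_inv g := by
    funext x
    have h : x.1 ∉ A := x.2
    apply Fin.castSucc_injective
    rw [Fin.castSucc_castPred]
    simp only [h, dif_neg, not_false_eq_true]

theorem card_last {m : ℕ} {V : Type} [DecidableEq V] {A : Finset V} (f : {f : V → Fin (m + 1) // ∀ x, f x = Fin.last m ↔ x ∈ A}) :
    Nat.card {x // f.1 x = Fin.last m} = A.card := by
  rw [Nat.card_congr (Equiv.subtypeEquivRight f.2), Nat.card_eq_fintype_card, Fintype.card_coe]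

theorem card_cast {m : ℕ} {V : Type} [DecidableEq V] {A : Finset V} (f : {f : V → Fin (m + 1) // ∀ x, f x = Fin.last m ↔ x ∈ A})
    (i : Fin m) : Nat.card {x // f.1 x = i.castSucc} = Nat.card {y // lastE m A f y = i} := by
  refine Nat.card_congr ⟨fun x => ⟨⟨x.1, fun h => ?_⟩, ?_⟩, fun y => ⟨y.1.1, ?_⟩, fun x => rfl, fun y => rfl⟩
  · have h1 := (f.2 x.1).2 h
    rw [x.2] at h1
    exact (Fin.castSucc_lt_last _).ne h1
  · apply Fin.castSucc_injective
    refine Eq.trans (Fin.castSucc_castPred _ ?_) x.2
    rw [x.2]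
    exact (Fin.castSucc_lt_last _).ne
  · have h1 := congrArg Fin.castSucc y.2
    have hne : f.1 y.1.1 ≠ Fin.last m := fun h => y.1.2 ((f.2 y.1.1).1 h)
    have h2 : (lastE m A f y.1).castSucc = f.1 y.1.1 := Fin.castSucc_castPred _ hne
    rw [h2] at h1
    exact h1

/-- the recursion -/
theorem cf_succ (m Q : ℕ) (τ : Fin (m + 1) → ℕ) (n : ℕ) : cf (m + 1) Q τ (Fin n) =
    ∑ a ∈ Finset.range (n + 1), n.choose a *
      (if min Q a = τ (Fin.last m) then cf m Q (fun i => τ i.castSucc) (Fin (n - a)) else 0) := by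
  classical
  let P : (Fin n → Fin (m + 1)) → Prop := fun f => ∀ i, min Q (Nat.card {x // f x = i}) = τ i
  -- split according to the last class
  let Ψ : {f : Fin n → Fin (m + 1) // P f} ≃
      (A : Finset (Fin n)) × {f : {f : Fin n → Fin (m + 1) // ∀ x, f x = Fin.last m ↔ x ∈ A} // P f.1} :=
    { toFun := fun f => ⟨Finset.univ.filter fun x => f.1 x = Fin.last m, ⟨⟨f.1, fun x => by simp⟩, f.2⟩⟩
      invFun := fun p => ⟨p.2.1.1, p.2.2⟩
      left_inv := fun f => rfl
      right_inv := by
        rintro ⟨A, ⟨⟨f, hf⟩, hP⟩⟩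
        obtain rfl : (Finset.univ.filter fun x => f x = Fin.last m) = A := by
          ext x
          rw [Finset.mem_filter, ← hf x]
          simp
        rfl }
  have h1 : cf (m + 1) Q τ (Fin n) = ∑ A : Finset (Fin n),
      Nat.card {f : {f : Fin n → Fin (m + 1) // ∀ x, f x = Fin.last m ↔ x ∈ A} // P f.1} := by
    show Nat.card {f : Fin n → Fin (m + 1) // P f} = _
    rw [Nat.card_congr Ψ, Nat.card_sigma]
  have h2 : ∀ A : Finset (Fin n), Nat.card {f : {f : Fin n → Fin (m + 1) // ∀ x, f x = Fin.last m ↔ x ∈ A} // P f.1} =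
      if min Q A.card = τ (Fin.last m) then cf m Q (fun i => τ i.castSucc) (Fin (n - A.card)) else 0 := by
    intro A
    have h3 : ∀ f : {f : Fin n → Fin (m + 1) // ∀ x, f x = Fin.last m ↔ x ∈ A}, P f.1 ↔
        (min Q A.card = τ (Fin.last m) ∧ ∀ i, min Q (Nat.card {y // lastE m A f y = i}) = τ i.castSucc) := by
      intro f
      show (∀ i, min Q (Nat.card {x // f.1 x = i}) = τ i) ↔ _
      rw [Fin.forall_fin_succ', card_last f, and_comm]
      simp only [card_cast f]
    have e1 : {f : {f : Fin n → Fin (m + 1) // ∀ x, f x = Fin.last m ↔ x ∈ A} // P f.1} ≃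
        {g : {x // x ∉ A} → Fin m // min Q A.card = τ (Fin.last m) ∧ ∀ i, min Q (Nat.card {y // g y = i}) = τ i.castSucc} :=
      Equiv.subtypeEquiv (lastE m A) h3
    rw [Nat.card_congr e1]
    split_ifs with h4
    · have e2 : {g : {x // x ∉ A} → Fin m // min Q A.card = τ (Fin.last m) ∧
          ∀ i, min Q (Nat.card {y // g y = i}) = τ i.castSucc} ≃
          {g : {x // x ∉ A} → Fin m // ∀ i, min Q (Nat.card {y // g y = i}) = τ i.castSucc} :=
        Equiv.subtypeEquivRight fun g => by simp only [h4, true_and]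
      rw [Nat.card_congr e2]
      have e3 : {x // x ∉ A} ≃ Fin (n - A.card) := Fintype.equivOfCardEq (by
        rw [Fintype.card_subtype_compl, Fintype.card_fin, Fintype.card_fin, Fintype.card_coe])
      exact cf_congr m Q _ e3
    · have : IsEmpty {g : {x // x ∉ A} → Fin m // min Q A.card = τ (Fin.last m) ∧
          ∀ i, min Q (Nat.card {y // g y = i}) = τ i.castSucc} := ⟨fun g => h4 g.2.1⟩
      exact Nat.card_of_isEmpty
  rw [h1, Finset.sum_congr rfl fun A _ => h2 A, ← Finset.powerset_univ,
    Finset.sum_powerset_apply_card (fun a => if min Q a = τ (Fin.last m) then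
      cf m Q (fun i => τ i.castSucc) (Fin (n - a)) else 0), Finset.card_univ, Fintype.card_fin]
  simp only [smul_eq_mul]

/-- E4a: exactly `s` points in a class -/
theorem EP_choose {F : ℕ → ℚ} (hF : F ∈ EP) (s : ℕ) : (fun n => (n.choose s : ℚ) * F (n - s)) ∈ EP := peel1 hF s

/-- E4b: any number of points in a class -/
theorem EP_conv {F : ℕ → ℚ} (hF : F ∈ EP) : (fun n => ∑ a ∈ Finset.range (n + 1), (n.choose a : ℚ) * F (n - a)) ∈ EP :=
  peel2 hF

/-- E4: the numbers of maps with given truncated fibre sizes are exponential polynomials -/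
theorem cf_mem (m Q : ℕ) (τ : Fin m → ℕ) : (fun n => (cf m Q τ (Fin n) : ℚ)) ∈ EP := by
  induction m with
  | zero =>
    have : (fun n => (cf 0 Q τ (Fin n) : ℚ)) = eb 0 0 := by
      funext n
      unfold eb cf
      rw [Nat.descFactorial_zero, Nat.cast_one, one_mul, Nat.sub_zero, Nat.cast_zero]
      rcases Nat.eq_zero_or_pos n with h | h
      · subst h
        have : Unique {f : Fin 0 → Fin 0 // ∀ i, min Q (Nat.card {x // f x = i}) = τ i} :=
          { default := ⟨fun x => x, fun i => i.elim0⟩
            uniq := fun f => Subtype.ext (funext fun x => x.elim0) }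
        rw [Nat.card_unique, pow_zero, Nat.cast_one]
      · have : IsEmpty {f : Fin n → Fin 0 // ∀ i, min Q (Nat.card {x // f x = i}) = τ i} :=
          ⟨fun f => (f.1 ⟨0, h⟩).elim0⟩
        rw [Nat.card_of_isEmpty, zero_pow (by omega), Nat.cast_zero]
    rw [this]
    exact gen_mem 0 0
  | succ m ih =>
    have h := peel Q (τ (Fin.last m)) (ih fun i => τ i.castSucc)
    have : (fun n => (cf (m + 1) Q τ (Fin n) : ℚ)) = fun n => ∑ a ∈ Finset.range (n + 1), (n.choose a : ℚ) *
        (if min Q a = τ (Fin.last m) then (cf m Q (fun i => τ i.castSucc) (Fin (n - a)) : ℚ) else 0) := by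
      funext n
      rw [cf_succ]
      push_cast
      rfl
    rw [this]
    exact h

/-- E4c: labellings with given truncated sizes -/
theorem count_trunc (Q m : ℕ) (τ : Fin m → ℕ) : ∃ F ∈ EP, ∀ (M : Type) [Finite M],
    (Nat.card {f : M → Fin m // ∀ i, min Q (Nat.card {x // f x = i}) = τ i} : ℚ) = F (Nat.card M) := by
  refine ⟨_, cf_mem m Q τ, fun M _ => ?_⟩
  have e : M ≃ Fin (Nat.card M) := Finite.equivFin M
  show ((cf m Q τ M : ℕ) : ℚ) = ((cf m Q τ (Fin (Nat.card M)) : ℕ) : ℚ)
  rw [cf_congr m Q τ e]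

end Pool.Agent.Helper53.EP
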